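import Pool.Agent.Helper51.HH.Cone

/-!
Hyperelliptic Hodge integrals `D_{(i),2g+2}` and `d_{(i),2g+2}` (descendants at one Weierstrass
point, resp. at one untwisted point).  The structure `HodgeIntegrals` records the published
recursion (topological recursion at the marked point, string equation, and the splitting
`c(E) = c(E_1) c(E_2)` of the Hodge bundle on the boundary); `topIntegral` is the top degree
integral of `lambda_j` over the hyperelliptic locus of genus `h`.
-/

namespace Pool.Agent.Results.MP_fc023d_ag.TopNumbersDecide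

open Finset Pool.Agent.Helper51.HH

/-- the total degree `|i|` of `lambda_i = lambda_{i_1} ... lambda_{i_n}` -/
def totalDegree {n : ℕ} (i : Fin n → ℕ) : ℕ := ∑ a, i a

/-- the integral of `lambda_j` over the `(2h-1)`-dimensional hyperelliptic locus of genus `h`;
it is zero unless `|j| = 2h-1`, when it equals `D_{(j),2h+2}` (no psi class left) -/
def topIntegral {n : ℕ} (D : (Fin n → ℕ) → ℕ → ℚ) (j : Fin n → ℕ) (h : ℕ) : ℚ :=
  if totalDegree j + 1 = 2 * h then D j h else 0

/-- `D i g` is `D_{(i),2g+2}` and `d i g` is `d_{(i),2g+2}` -/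
structure HodgeIntegrals (n : ℕ) where
  D : (Fin n → ℕ) → ℕ → ℚ
  d : (Fin n → ℕ) → ℕ → ℚ
  D_zero : ∀ i, D i 0 = if i = 0 then 1 / 2 else 0
  d_zero : ∀ i, d i 0 = if i = 0 then 1 / 2 else 0
  D_rec : ∀ (i : Fin n → ℕ) (g : ℕ), D i (g + 1) = D i g +
    ∑ h ∈ Icc 1 (g + 1), ((2 * g + 1).choose (2 * h - 1) : ℚ) *
      ∑ j ∈ Iic i, 2 * topIntegral D j h * D (i - j) (g + 1 - h)
  d_rec : ∀ (i : Fin n → ℕ) (g : ℕ), d i (g + 1) = d i g +
    ∑ h ∈ Icc 1 (g + 1), ((2 * g + 2).choose (2 * h - 1) : ℚ) *
      ∑ j ∈ Iic i, 2 * topIntegral D j h * d (i - j) (g + 1 - h)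

/-- `c` is the sequence of coefficients of `F(g)`, `g ≥ 1`, in the basis `binom(g,k)` -/
def IsBinomialExpansion (F : ℕ → ℚ) (c : ℕ → ℚ) : Prop :=
  ∃ N : ℕ, (∀ k, N < k → c k = 0) ∧ ∀ g : ℕ, 1 ≤ g → F g = ∑ k ∈ range (N + 1), c k * (g.choose k : ℚ)

lemma totalDegree_mono {n : ℕ} {i j : Fin n → ℕ} (h : j ≤ i) : totalDegree j ≤ totalDegree i :=
  Finset.sum_le_sum (fun a _ => h a)

lemma totalDegree_sub {n : ℕ} {i j : Fin n → ℕ} (h : j ≤ i) :
    totalDegree (i - j) + totalDegree j = totalDegree i := by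
  unfold totalDegree
  rw [← Finset.sum_add_distrib]
  exact Finset.sum_congr rfl (fun a _ => Nat.sub_add_cancel (h a))

lemma sum_Icc_one (F : ℕ → ℚ) (n : ℕ) : ∑ h ∈ Icc 1 n, F h = ∑ m ∈ range n, F (m + 1) := by
  induction n with
  | zero => simp
  | succ n ih => rw [Finset.sum_Icc_succ_top (by omega), ih, Finset.sum_range_succ]

/-- the general step -/
lemma cone_of_rec {n : ℕ} {s : Prop} (ch : ℕ → ℕ) (T E : (Fin n → ℕ) → ℕ → ℚ)
    (hch : ∀ u m, u < m → (ch u).choose (2 * m + 1) = 0)
    (hker : ∀ (N : ℕ) (f : ℕ → ℚ) (m : ℕ), Cone s 0 N f →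
      Cone s m (N + m + (m + 1)) (fun u => ((ch u).choose (2 * m + 1) : ℚ) * f (u - m)))
    (hT : s → ∀ j h, 0 ≤ T j h)
    (hT0 : ∀ j h, totalDegree j + 1 ≠ 2 * h → T j h = 0)
    (hE0 : ∀ i, E i 0 = if i = 0 then 1 / 2 else 0)
    (hE : ∀ (i : Fin n → ℕ) (g : ℕ), E i (g + 1) = E i g +
      ∑ h ∈ Icc 1 (g + 1), ((ch g).choose (2 * h - 1) : ℚ) *
        ∑ j ∈ Iic i, 2 * T j h * E (i - j) (g + 1 - h)) :
    ∀ i : Fin n → ℕ, Cone s 0 (2 * totalDegree i) (E i) := by
  have key : ∀ (N : ℕ) (i : Fin n → ℕ), totalDegree i = N → Cone s 0 (2 * totalDegree i) (E i) := by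
    intro N
    induction N using Nat.strong_induction_on with
    | _ N ih =>
      intro i hi
      -- the increment
      set f : ℕ → ℚ := fun u => ∑ m ∈ range (N + 1), ∑ j ∈ Iic i,
        (2 * T j (m + 1)) * (((ch u).choose (2 * m + 1) : ℚ) * E (i - j) (u - m)) with hf
      have hstep : ∀ u, E i (u + 1) = E i u + f u := by
        intro u
        rw [hE, hf, sum_Icc_one]
        congr 1
        set G : ℕ → ℚ := fun m => ((ch u).choose (2 * m + 1) : ℚ) *
            ∑ j ∈ Iic i, 2 * T j (m + 1) * E (i - j) (u - m) with hG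
        have hG1 : ∀ m, u < m → G m = 0 := by
          intro m hm; simp only [hG]; rw [hch u m hm]; simp
        have hG2 : ∀ m, N < m → G m = 0 := by
          intro m hm
          simp only [hG]
          rw [Finset.sum_eq_zero, mul_zero]
          intro j hj
          rw [Finset.mem_Iic] at hj
          have := totalDegree_mono hj
          rw [hT0 j (m + 1) (by omega)]; ring
        have e1 : ∑ m ∈ range (u + 1), ((ch u).choose (2 * (m + 1) - 1) : ℚ) *
            ∑ j ∈ Iic i, 2 * T j (m + 1) * E (i - j) (u + 1 - (m + 1)) = ∑ m ∈ range (u + 1), G m := by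
          refine Finset.sum_congr rfl (fun m _ => ?_)
          have a1 : 2 * (m + 1) - 1 = 2 * m + 1 := by omega
          have a2 : u + 1 - (m + 1) = u - m := by omega
          simp only [hG, a1, a2]
        have e2 : ∑ m ∈ range (u + 1), G m = ∑ m ∈ range (u + 1 + (N + 1)), G m := by
          refine Finset.sum_subset (Finset.range_subset_range.mpr (by omega)) (fun m _ hm => ?_)
          rw [Finset.mem_range] at hm
          exact hG1 m (by omega)
        have e3 : ∑ m ∈ range (N + 1), G m = ∑ m ∈ range (u + 1 + (N + 1)), G m := by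
          refine Finset.sum_subset (Finset.range_subset_range.mpr (by omega)) (fun m _ hm => ?_)
          rw [Finset.mem_range] at hm
          exact hG2 m (by omega)
        rw [e1, e2, ← e3]
        refine Finset.sum_congr rfl (fun m _ => ?_)
        simp only [hG, Finset.mul_sum]
        exact Finset.sum_congr rfl (fun j _ => by ring)
      have hfc : Cone s 0 (2 * totalDegree i - 1) f := by
        refine Cone.sum _ (fun m _ => Cone.sum _ (fun j hj => ?_))
        rw [Finset.mem_Iic] at hj
        by_cases hd : totalDegree j + 1 = 2 * (m + 1)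
        · have hs := totalDegree_sub hj
          have h1 : Cone s 0 (2 * totalDegree (i - j)) (E (i - j)) :=
            ih (totalDegree (i - j)) (by omega) (i - j) rfl
          have h2 := (hker _ _ m h1).smul (r := 2 * T j (m + 1))
            (fun hs => mul_nonneg (by norm_num) (hT hs j (m + 1)))
          exact h2.mono (Nat.zero_le _) (by omega)
        · rw [hT0 j (m + 1) hd]
          exact (Cone.zero 0 _).congr (fun u => by ring)
      have hsum : ∀ g, E i g = E i 0 + ∑ u ∈ range g, f u := by
        intro g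
        induction g with
        | zero => simp
        | succ g ihg => rw [hstep, ihg, Finset.sum_range_succ]; ring
      have hconst : Cone s 0 (2 * totalDegree i) (fun _ => E i 0) := by
        refine (Cone.single (a := 0) (N := 2 * totalDegree i) (m := 0) le_rfl (Nat.zero_le _)
          (r := E i 0) (fun _ => ?_)).congr (fun u => by simp)
        rw [hE0]; split_ifs <;> norm_num
      by_cases h0 : totalDegree i = 0
      · -- `f = 0`
        have hf0 : ∀ u, f u = 0 := by
          intro u
          refine Finset.sum_eq_zero (fun m _ => Finset.sum_eq_zero (fun j hj => ?_))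
          rw [Finset.mem_Iic] at hj
          have := totalDegree_mono hj
          rw [hT0 j (m + 1) (by omega)]; ring
        exact hconst.congr (fun g => by rw [hsum g, Finset.sum_eq_zero (fun u _ => hf0 u), add_zero])
      · have h3 := (hfc.sumRange).mono (a' := 0) (N' := 2 * totalDegree i) (by omega) (by omega)
        exact (hconst.add h3).congr (fun g => hsum g)
  exact fun i => key _ i rfl

/-- uniqueness of binomial expansions -/
lemma expansion_unique {F : ℕ → ℚ} {b c : ℕ → ℚ} (hb : IsBinomialExpansion F b)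
    (hc : IsBinomialExpansion F c) : b = c := by
  obtain ⟨N, hbN, hbF⟩ := hb
  obtain ⟨M, hcM, hcF⟩ := hc
  set K := N + M with hK
  have hb' : ∀ g : ℕ, 1 ≤ g → F g = ∑ k ∈ range (K + 1), b k * (g.choose k : ℚ) := by
    intro g hg
    rw [hbF g hg]
    refine Finset.sum_subset (Finset.range_subset_range.mpr (by omega)) (fun m _ hm => ?_)
    rw [Finset.mem_range] at hm
    rw [hbN m (by omega), zero_mul]
  have hc' : ∀ g : ℕ, 1 ≤ g → F g = ∑ k ∈ range (K + 1), c k * (g.choose k : ℚ) := by
    intro g hg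
    rw [hcF g hg]
    refine Finset.sum_subset (Finset.range_subset_range.mpr (by omega)) (fun m _ hm => ?_)
    rw [Finset.mem_range] at hm
    rw [hcM m (by omega), zero_mul]
  set p : Polynomial ℚ := ∑ k ∈ range (K + 1),
    Polynomial.C ((b k - c k) / (k.factorial : ℚ)) * descPochhammer ℚ k with hp
  have hev : ∀ g : ℕ, p.eval (g : ℚ) = ∑ k ∈ range (K + 1), (b k - c k) * (g.choose k : ℚ) := by
    intro g
    rw [hp, Polynomial.eval_finsetSum]
    refine Finset.sum_congr rfl (fun k _ => ?_)
    rw [Polynomial.eval_mul, Polynomial.eval_C, descPochhammer_eval_eq_descFactorial, choose_cast]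
    ring
  have hz : p = 0 := by
    refine Polynomial.eq_zero_of_infinite_isRoot p ?_
    have hinf : (Set.range (fun n : ℕ => ((n + 1 : ℕ) : ℚ))).Infinite :=
      Set.infinite_range_of_injective (fun a b h => by
        have h' : ((a + 1 : ℕ) : ℚ) = ((b + 1 : ℕ) : ℚ) := h
        have := Nat.cast_injective h'
        omega)
    refine hinf.mono ?_
    rintro x ⟨n, rfl⟩
    show p.IsRoot _
    rw [Polynomial.IsRoot, hev]
    have h1 := hb' (n + 1) (by omega)
    have h2 := hc' (n + 1) (by omega)
    simp only [sub_mul, Finset.sum_sub_distrib]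
    rw [← h1, ← h2, sub_self]
  have hzero : ∀ g : ℕ, ∑ k ∈ range (K + 1), (b k - c k) * (g.choose k : ℚ) = 0 := by
    intro g; rw [← hev, hz]; simp
  have hk : ∀ k, k < K + 1 → b k - c k = 0 := by
    intro k
    induction k using Nat.strong_induction_on with
    | _ k ih =>
      intro hk
      have h := hzero k
      rw [Finset.sum_eq_single k] at h
      · simpa using h
      · intro m hm hne
        rw [Finset.mem_range] at hm
        rcases lt_or_gt_of_ne hne with h1 | h1
        · rw [ih m h1 hm, zero_mul]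
        · rw [Nat.choose_eq_zero_of_lt h1]; simp
      · intro h1; exact absurd (Finset.mem_range.mpr hk) h1
  funext k
  rcases lt_or_ge k (K + 1) with h | h
  · linarith [hk k h]
  · rw [hbN k (by omega), hcM k (by omega)]

/-- from a cone to a binomial expansion -/
lemma expansion_of_cone {s : Prop} {N : ℕ} {f : ℕ → ℚ} (h : Cone s 0 N f) {r : ℚ} (hr : 0 ≤ r) :
    ∃ c : ℕ → ℚ, IsBinomialExpansion (fun g => r * f g) c ∧ (∀ k, N < k → c k = 0) ∧
      (s → ∀ k, 0 ≤ c k) := by
  classical
  obtain ⟨c, hc, hf⟩ := h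
  refine ⟨fun k => if k ≤ N then r * c k * (k.factorial : ℚ) else 0,
    ⟨N, fun k hk => if_neg (by omega), fun g _ => ?_⟩, fun k hk => if_neg (by omega),
    fun hs k => ?_⟩
  · have e : Icc 0 N = range (N + 1) := by
      ext k; simp
    show r * f g = _
    rw [hf, e, Finset.mul_sum]
    refine Finset.sum_congr rfl (fun k hk => ?_)
    rw [Finset.mem_range] at hk
    dsimp only
    rw [if_pos (by omega), choose_cast]
    have : (k.factorial : ℚ) ≠ 0 := by exact_mod_cast k.factorial_ne_zero
    field_simp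
  · dsimp only
    split_ifs
    · have := hc hs k
      positivity
    · exact le_rfl

theorem result {n : ℕ} (H : HodgeIntegrals n) :
    (∀ i : Fin n → ℕ,
      (∃ c : ℕ → ℚ, IsBinomialExpansion (fun g => 2 ^ (1 + totalDegree i) * H.D i g) c ∧
        ∀ k, 2 * totalDegree i < k → c k = 0) ∧
      (∃ c : ℕ → ℚ, IsBinomialExpansion (fun g => 2 ^ (1 + totalDegree i) * H.d i g) c ∧
        ∀ k, 2 * totalDegree i < k → c k = 0)) ∧
    ((∀ (i : Fin n → ℕ) (c : ℕ → ℚ),
        IsBinomialExpansion (fun g => 2 ^ (1 + totalDegree i) * H.D i g) c ∨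
        IsBinomialExpansion (fun g => 2 ^ (1 + totalDegree i) * H.d i g) c → ∀ k, 0 ≤ c k) ↔
      ∀ (i : Fin n → ℕ) (h : ℕ), totalDegree i + 1 = 2 * h → 0 ≤ H.D i h) := by
  set s : Prop := ∀ (i : Fin n → ℕ) (h : ℕ), totalDegree i + 1 = 2 * h → 0 ≤ H.D i h with hs
  have hT : s → ∀ j h, 0 ≤ topIntegral H.D j h := by
    intro h j m
    unfold topIntegral
    split_ifs with hd
    · exact h j m hd
    · exact le_rfl
  have hT0 : ∀ (j : Fin n → ℕ) (h : ℕ), totalDegree j + 1 ≠ 2 * h → topIntegral H.D j h = 0 := by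
    intro j h hne
    exact if_neg hne
  have hD : ∀ i : Fin n → ℕ, Cone s 0 (2 * totalDegree i) (H.D i) :=
    cone_of_rec (fun u => 2 * u + 1) (topIntegral H.D) H.D
      (fun u m h => Nat.choose_eq_zero_of_lt (by omega)) (fun N f m h => h.kerOdd m) hT hT0
      H.D_zero H.D_rec
  have hd : ∀ i : Fin n → ℕ, Cone s 0 (2 * totalDegree i) (H.d i) :=
    cone_of_rec (fun u => 2 * u + 2) (topIntegral H.D) H.d
      (fun u m h => Nat.choose_eq_zero_of_lt (by omega)) (fun N f m h => h.kerEven m) hT hT0
      H.d_zero H.d_rec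
  refine ⟨fun i => ⟨?_, ?_⟩, ⟨fun h => ?_, fun h => ?_⟩⟩
  · obtain ⟨c, h1, h2, -⟩ := expansion_of_cone (hD i)
      (r := 2 ^ (1 + totalDegree i)) (by positivity)
    exact ⟨c, h1, h2⟩
  · obtain ⟨c, h1, h2, -⟩ := expansion_of_cone (hd i)
      (r := 2 ^ (1 + totalDegree i)) (by positivity)
    exact ⟨c, h1, h2⟩
  · intro i m hm
    obtain ⟨c, h1, h2, -⟩ := expansion_of_cone (hD i)
      (r := 2 ^ (1 + totalDegree i)) (by positivity)
    have hpos := h i c (Or.inl h1)
    obtain ⟨N, -, hF⟩ := h1
    have hm1 : 1 ≤ m := by omega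
    have h3 := hF m hm1
    have h4 : 0 ≤ 2 ^ (1 + totalDegree i) * H.D i m := by
      refine le_of_le_of_eq ?_ h3.symm
      exact Finset.sum_nonneg (fun k _ => mul_nonneg (hpos k) (by positivity))
    exact nonneg_of_mul_nonneg_right h4 (by positivity)
  · intro i c hc k
    rcases hc with hc | hc
    · obtain ⟨b, h1, -, h3⟩ := expansion_of_cone (hD i)
        (r := 2 ^ (1 + totalDegree i)) (by positivity)
      rw [expansion_unique hc h1]
      exact h3 h k
    · obtain ⟨b, h1, -, h3⟩ := expansion_of_cone (hd i)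
        (r := 2 ^ (1 + totalDegree i)) (by positivity)
      rw [expansion_unique hc h1]
      exact h3 h k

end Pool.Agent.Results.MP_fc023d_ag.TopNumbersDecide
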